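import Mathlib

/-!
Angles in a triangle of three mutually tangent circles: half-angle formula and derivative with
respect to the logarithms of the radii.
-/

namespace Pool.Agent.Y446.Doyle

open Real

/-- angle at the first circle -/
noncomputable def ang (a b c : ℝ) : ℝ :=
  Real.arccos (((a + b) ^ 2 + (a + c) ^ 2 - (b + c) ^ 2) / (2 * (a + b) * (a + c)))

/-- inradius of the triangle of centres -/
noncomputable def inr (a b c : ℝ) : ℝ := Real.sqrt (a * b * c / (a + b + c))

lemma inr_pos {a b c : ℝ} (ha : 0 < a) (hb : 0 < b) (hc : 0 < c) : 0 < inr a b c := by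
  unfold inr
  positivity

lemma inr_sq {a b c : ℝ} (ha : 0 < a) (hb : 0 < b) (hc : 0 < c) :
    inr a b c ^ 2 = a * b * c / (a + b + c) := by
  unfold inr
  rw [Real.sq_sqrt]
  positivity

lemma inr_comm (a b c : ℝ) : inr a b c = inr a c b := by
  unfold inr; ring_nf

lemma inr_rot (a b c : ℝ) : inr a b c = inr b c a := by
  unfold inr; ring_nf

lemma cos_two_arctan (x : ℝ) : Real.cos (2 * Real.arctan x) = (1 - x ^ 2) / (1 + x ^ 2) := by
  rw [Real.cos_two_mul, Real.cos_sq_arctan]
  have : (1 : ℝ) + x ^ 2 ≠ 0 := by positivity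
  field_simp
  ring

lemma ang_eq {a b c : ℝ} (ha : 0 < a) (hb : 0 < b) (hc : 0 < c) :
    ang a b c = 2 * Real.arctan (inr a b c / a) := by
  have hT := inr_pos ha hb hc
  have hT2 := inr_sq ha hb hc
  have h0 : 0 < Real.arctan (inr a b c / a) := by
    rw [Real.arctan_pos]; positivity
  have h1 := Real.arctan_lt_pi_div_two (inr a b c / a)
  have hcos : Real.cos (2 * Real.arctan (inr a b c / a)) =
      ((a + b) ^ 2 + (a + c) ^ 2 - (b + c) ^ 2) / (2 * (a + b) * (a + c)) := by
    rw [cos_two_arctan, div_pow, hT2]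
    have : a + b + c ≠ 0 := by positivity
    have h3 : a ^ 2 * (a + b + c) + a * b * c ≠ 0 := by positivity
    have h4 : a + b ≠ 0 := by positivity
    have h5 : a + c ≠ 0 := by positivity
    rw [div_eq_div_iff]
    · field_simp
      ring
    · positivity
    · positivity
  unfold ang
  rw [← hcos, Real.arccos_cos (by linarith) (by linarith)]

lemma ang_pos {a b c : ℝ} (ha : 0 < a) (hb : 0 < b) (hc : 0 < c) : 0 < ang a b c := by
  rw [ang_eq ha hb hc]
  have hT := inr_pos ha hb hc
  have h0 : 0 < Real.arctan (inr a b c / a) := by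
    rw [Real.arctan_pos]; positivity
  linarith

lemma ang_lt_pi {a b c : ℝ} (ha : 0 < a) (hb : 0 < b) (hc : 0 < c) : ang a b c < Real.pi := by
  rw [ang_eq ha hb hc]
  have h1 := Real.arctan_lt_pi_div_two (inr a b c / a)
  linarith

lemma cos_ang {a b c : ℝ} (ha : 0 < a) (hb : 0 < b) (hc : 0 < c) :
    Real.cos (ang a b c) = ((a + b) ^ 2 + (a + c) ^ 2 - (b + c) ^ 2) / (2 * (a + b) * (a + c)) := by
  unfold ang
  rw [Real.cos_arccos]
  · rw [le_div_iff₀ (by positivity)]
    nlinarith [mul_pos ha ha, mul_pos ha hb, mul_pos ha hc]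
  · rw [div_le_one (by positivity)]
    nlinarith [mul_pos hb hc]

/-- the exponential path of a radius -/
lemma hasDerivAt_exp_path (α w t : ℝ) :
    HasDerivAt (fun s : ℝ => Real.exp (α + s * w)) (Real.exp (α + t * w) * w) t := by
  have h1 : HasDerivAt (fun s : ℝ => α + s * w) w t := by
    simpa using ((hasDerivAt_id t).mul_const w).const_add α
  exact h1.exp

lemma hasDerivAt_inr (α β γ w1 w2 w3 t : ℝ) :
    HasDerivAt (fun s : ℝ => inr (Real.exp (α + s * w1)) (Real.exp (β + s * w2))
        (Real.exp (γ + s * w3)))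
      (inr (Real.exp (α + t * w1)) (Real.exp (β + t * w2)) (Real.exp (γ + t * w3)) *
        ((w1 + w2 + w3 - (Real.exp (α + t * w1) * w1 + Real.exp (β + t * w2) * w2 +
          Real.exp (γ + t * w3) * w3) / (Real.exp (α + t * w1) + Real.exp (β + t * w2) +
          Real.exp (γ + t * w3))) / 2)) t := by
  have ha := hasDerivAt_exp_path α w1 t
  have hb := hasDerivAt_exp_path β w2 t
  have hc := hasDerivAt_exp_path γ w3 t
  set a := Real.exp (α + t * w1) with hadef
  set b := Real.exp (β + t * w2) with hbdef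
  set c := Real.exp (γ + t * w3) with hcdef
  have pa : 0 < a := Real.exp_pos _
  have pb : 0 < b := Real.exp_pos _
  have pc : 0 < c := Real.exp_pos _
  have hs : (a + b + c) ≠ 0 := by positivity
  have hf := ((ha.mul hb).mul hc).div ((ha.add hb).add hc) hs
  have hfne : (a * b * c) / (a + b + c) ≠ 0 := by positivity
  have hsq := hf.sqrt (by simpa [hadef, hbdef, hcdef] using hfne)
  have hT2 := inr_sq pa pb pc
  have hT := inr_pos pa pb pc
  unfold inr at hT2 hT
  refine (hsq.congr_deriv ?_)
  simp only [inr, Pi.mul_apply, Pi.add_apply, Pi.div_apply]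
  simp only [← hadef, ← hbdef, ← hcdef]
  rw [div_eq_iff (by positivity)]
  have key : √(a * b * c / (a + b + c)) * √(a * b * c / (a + b + c)) =
      a * b * c / (a + b + c) := by
    rw [← sq]; exact hT2
  have : √(a * b * c / (a + b + c)) * ((w1 + w2 + w3 - (a * w1 + b * w2 + c * w3) / (a + b + c)) / 2) *
      (2 * √(a * b * c / (a + b + c))) = (w1 + w2 + w3 - (a * w1 + b * w2 + c * w3) / (a + b + c)) *
      (√(a * b * c / (a + b + c)) * √(a * b * c / (a + b + c))) := by ring
  rw [this, key]
  field_simp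

/-- Colin de Verdiere's derivative formula. -/
lemma hasDerivAt_ang (α β γ w1 w2 w3 t : ℝ) :
    HasDerivAt (fun s : ℝ => ang (Real.exp (α + s * w1)) (Real.exp (β + s * w2))
        (Real.exp (γ + s * w3)))
      (inr (Real.exp (α + t * w1)) (Real.exp (β + t * w2)) (Real.exp (γ + t * w3)) /
          (Real.exp (α + t * w1) + Real.exp (β + t * w2)) * (w2 - w1) +
        inr (Real.exp (α + t * w1)) (Real.exp (β + t * w2)) (Real.exp (γ + t * w3)) /
          (Real.exp (α + t * w1) + Real.exp (γ + t * w3)) * (w3 - w1)) t := by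
  have hfun : (fun s : ℝ => ang (Real.exp (α + s * w1)) (Real.exp (β + s * w2))
        (Real.exp (γ + s * w3))) = fun s : ℝ => 2 * Real.arctan
        (inr (Real.exp (α + s * w1)) (Real.exp (β + s * w2)) (Real.exp (γ + s * w3)) /
          Real.exp (α + s * w1)) := by
    funext s
    exact ang_eq (Real.exp_pos _) (Real.exp_pos _) (Real.exp_pos _)
  rw [hfun]
  have hT := hasDerivAt_inr α β γ w1 w2 w3 t
  have ha := hasDerivAt_exp_path α w1 t
  have pa : 0 < Real.exp (α + t * w1) := Real.exp_pos _
  have pb : 0 < Real.exp (β + t * w2) := Real.exp_pos _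
  have pc : 0 < Real.exp (γ + t * w3) := Real.exp_pos _
  have hd := ((hT.div ha pa.ne').arctan).const_mul 2
  refine hd.congr_deriv ?_
  have hT2 := inr_sq pa pb pc
  have hTp := inr_pos pa pb pc
  simp only [Pi.div_apply]
  generalize Real.exp (α + t * w1) = a at *
  generalize Real.exp (β + t * w2) = b at *
  generalize Real.exp (γ + t * w3) = c at *
  set T := inr a b c with hTdef
  have hs : a + b + c ≠ 0 := by positivity
  have hT2' : T ^ 2 * (a + b + c) = a * b * c := by
    rw [hT2]; field_simp
  have h1 : 1 + (T / a) ^ 2 = (a + b) * (a + c) / (a * (a + b + c)) := by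
    rw [div_pow, hT2]
    field_simp
    ring
  rw [h1]
  have hab : a + b ≠ 0 := by positivity
  have hac : a + c ≠ 0 := by positivity
  field_simp
  ring

end Pool.Agent.Y446.Doyle
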