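import Mathlib

/-!
Logarithmic cutoff functions on `ℤ × ℤ`.
-/

namespace Pool.Agent.Y446.Doyle

open Finset Filter

/-- sup norm -/
def nrm (x : ℤ × ℤ) : ℕ := max x.1.natAbs x.2.natAbs

/-- harmonic numbers -/
noncomputable def har (k : ℕ) : ℝ := ∑ i ∈ range k, (1 / ((i : ℝ) + 1))

lemma har_zero : har 0 = 0 := by simp [har]

lemma har_succ (k : ℕ) : har (k + 1) = har k + 1 / ((k : ℝ) + 1) := by
  simp [har, sum_range_succ]

lemma har_mono {k l : ℕ} (h : k ≤ l) : har k ≤ har l := by
  unfold har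
  apply sum_le_sum_of_subset_of_nonneg
  · exact range_mono h
  · intros; positivity

lemma har_pos {k : ℕ} (h : 1 ≤ k) : 0 < har k := by
  have h1 := har_mono h
  have h2 : har 1 = 1 := by simp [har]
  linarith

/-- radial profile -/
noncomputable def prof (K k : ℕ) : ℝ := 1 - har (min k K) / har K

lemma prof_zero (K : ℕ) : prof K 0 = 1 := by simp [prof, har_zero]

lemma prof_of_le {K k : ℕ} (hK : 1 ≤ K) (h : K ≤ k) : prof K k = 0 := by
  unfold prof
  rw [min_eq_right h, div_self (har_pos hK).ne', sub_self]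

lemma prof_diff {K : ℕ} (hK : 1 ≤ K) (k : ℕ) :
    |prof K k - prof K (k + 1)| ≤ 1 / (har K * ((k : ℝ) + 1)) := by
  have hH := har_pos hK
  unfold prof
  rcases le_or_gt (k + 1) K with h | h
  · rw [min_eq_left (by omega : k ≤ K), min_eq_left h, har_succ]
    have : 1 - har k / har K - (1 - (har k + 1 / ((k : ℝ) + 1)) / har K) =
        1 / (har K * ((k : ℝ) + 1)) := by
      field_simp
      ring
    rw [this, abs_of_nonneg (by positivity)]
  · rw [min_eq_right (by omega : K ≤ k), min_eq_right (by omega : K ≤ k + 1), sub_self, abs_zero]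
    positivity

/-- cutoff function -/
noncomputable def cut (K : ℕ) (x : ℤ × ℤ) : ℝ := prof K (nrm x)

lemma prof_near {K : ℕ} (hK : 1 ≤ K) {k l n : ℕ} (h1 : k ≤ l + 1) (h2 : l ≤ k + 1)
    (h3 : n ≤ k + 1) (h4 : n ≤ l + 1) :
    (prof K k - prof K l) ^ 2 ≤ (1 / (har K * (max n 1 : ℕ))) ^ 2 := by
  have hH := har_pos hK
  apply sq_le_sq'
  · have key : |prof K k - prof K l| ≤ 1 / (har K * (max n 1 : ℕ)) := by
      rcases Nat.lt_trichotomy k l with h | h | h
      · obtain rfl : l = k + 1 := by omega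
        refine (prof_diff hK k).trans ?_
        apply one_div_le_one_div_of_le (by positivity)
        apply mul_le_mul_of_nonneg_left _ hH.le
        have : max n 1 ≤ k + 1 := by omega
        exact_mod_cast this
      · subst h
        rw [sub_self, abs_zero]; positivity
      · obtain rfl : k = l + 1 := by omega
        rw [abs_sub_comm]
        refine (prof_diff hK l).trans ?_
        apply one_div_le_one_div_of_le (by positivity)
        apply mul_le_mul_of_nonneg_left _ hH.le
        have : max n 1 ≤ l + 1 := by omega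
        exact_mod_cast this
    linarith [neg_abs_le (prof K k - prof K l)]
  · have key : |prof K k - prof K l| ≤ 1 / (har K * (max n 1 : ℕ)) := by
      rcases Nat.lt_trichotomy k l with h | h | h
      · obtain rfl : l = k + 1 := by omega
        refine (prof_diff hK k).trans ?_
        apply one_div_le_one_div_of_le (by positivity)
        apply mul_le_mul_of_nonneg_left _ hH.le
        have : max n 1 ≤ k + 1 := by omega
        exact_mod_cast this
      · subst h
        rw [sub_self, abs_zero]; positivity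
      · obtain rfl : k = l + 1 := by omega
        rw [abs_sub_comm]
        refine (prof_diff hK l).trans ?_
        apply one_div_le_one_div_of_le (by positivity)
        apply mul_le_mul_of_nonneg_left _ hH.le
        have : max n 1 ≤ l + 1 := by omega
        exact_mod_cast this
    linarith [le_abs_self (prof K k - prof K l)]

/-- energy of the two faces at `x` -/
noncomputable def en (η : ℤ × ℤ → ℝ) (x : ℤ × ℤ) : ℝ :=
  ((η x - η (x + (1, 0))) ^ 2 + (η (x + (1, 0)) - η (x + (0, 1))) ^ 2 +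
    (η (x + (0, 1)) - η x) ^ 2) +
  ((η x - η (x + (0, 1))) ^ 2 + (η (x + (0, 1)) - η (x + (-1, 1))) ^ 2 +
    (η (x + (-1, 1)) - η x) ^ 2)

lemma nrm_add (x d : ℤ × ℤ) : nrm (x + d) ≤ nrm x + nrm d := by
  unfold nrm
  simp only [Prod.fst_add, Prod.snd_add]
  omega

lemma en_cut_le {K : ℕ} (hK : 1 ≤ K) (x : ℤ × ℤ) :
    en (cut K) x ≤ 6 * (1 / (har K * (max (nrm x) 1 : ℕ))) ^ 2 := by
  unfold en cut
  have a : nrm (x + (1, 0)) ≤ nrm x + 1 ∧ nrm x ≤ nrm (x + (1, 0)) + 1 := by
    unfold nrm; simp only [Prod.fst_add, Prod.snd_add]; omega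
  have b : nrm (x + (0, 1)) ≤ nrm x + 1 ∧ nrm x ≤ nrm (x + (0, 1)) + 1 := by
    unfold nrm; simp only [Prod.fst_add, Prod.snd_add]; omega
  have c : nrm (x + (-1, 1)) ≤ nrm x + 1 ∧ nrm x ≤ nrm (x + (-1, 1)) + 1 := by
    unfold nrm; simp only [Prod.fst_add, Prod.snd_add]; omega
  have ab : nrm (x + (1, 0)) ≤ nrm (x + (0, 1)) + 1 ∧ nrm (x + (0, 1)) ≤ nrm (x + (1, 0)) + 1 := by
    unfold nrm; simp only [Prod.fst_add, Prod.snd_add]; omega
  have bc : nrm (x + (0, 1)) ≤ nrm (x + (-1, 1)) + 1 ∧
      nrm (x + (-1, 1)) ≤ nrm (x + (0, 1)) + 1 := by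
    unfold nrm; simp only [Prod.fst_add, Prod.snd_add]; omega
  have p1 := prof_near hK (n := nrm x) (k := nrm x) (l := nrm (x + (1, 0))) (by omega) (by omega)
    (by omega) (by omega)
  have p2 := prof_near hK (n := nrm x) (k := nrm (x + (1, 0))) (l := nrm (x + (0, 1)))
    (by omega) (by omega) (by omega) (by omega)
  have p3 := prof_near hK (n := nrm x) (k := nrm (x + (0, 1))) (l := nrm x)
    (by omega) (by omega) (by omega) (by omega)
  have p4 := prof_near hK (n := nrm x) (k := nrm x) (l := nrm (x + (0, 1)))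
    (by omega) (by omega) (by omega) (by omega)
  have p5 := prof_near hK (n := nrm x) (k := nrm (x + (0, 1))) (l := nrm (x + (-1, 1)))
    (by omega) (by omega) (by omega) (by omega)
  have p6 := prof_near hK (n := nrm x) (k := nrm (x + (-1, 1))) (l := nrm x)
    (by omega) (by omega) (by omega) (by omega)
  linarith

lemma en_cut_zero {K : ℕ} (hK : 1 ≤ K) {x : ℤ × ℤ} (hx : K + 1 < nrm x) : en (cut K) x = 0 := by
  unfold en cut
  have a : nrm x ≤ nrm (x + (1, 0)) + 1 := by
    unfold nrm; simp only [Prod.fst_add, Prod.snd_add]; omega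
  have b : nrm x ≤ nrm (x + (0, 1)) + 1 := by
    unfold nrm; simp only [Prod.fst_add, Prod.snd_add]; omega
  have c : nrm x ≤ nrm (x + (-1, 1)) + 1 := by
    unfold nrm; simp only [Prod.fst_add, Prod.snd_add]; omega
  rw [prof_of_le hK (by omega : K ≤ nrm x), prof_of_le hK (by omega : K ≤ nrm (x + (1, 0))),
    prof_of_le hK (by omega : K ≤ nrm (x + (0, 1))), prof_of_le hK (by omega : K ≤ nrm (x + (-1, 1)))]
  norm_num

lemma en_nonneg (η : ℤ × ℤ → ℝ) (x : ℤ × ℤ) : 0 ≤ en η x := by
  unfold en; positivity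

/-- the finite set of points of norm at most `K + 1` -/
noncomputable def bigbox (K : ℕ) : Finset (ℤ × ℤ) := (range (K + 2)).biUnion box

lemma mem_bigbox {K : ℕ} {x : ℤ × ℤ} : x ∈ bigbox K ↔ nrm x ≤ K + 1 := by
  unfold bigbox
  simp only [mem_biUnion, mem_range, Int.mem_box]
  constructor
  · rintro ⟨a, ha, h⟩
    unfold nrm; omega
  · intro h
    exact ⟨nrm x, by omega, rfl⟩

lemma sum_en_cut {K : ℕ} (hK : 1 ≤ K) :
    ∑ x ∈ bigbox K, en (cut K) x ≤ 6 * (9 + 8 * har K) / har K ^ 2 := by
  have hH := har_pos hK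
  have h1 : ∑ x ∈ bigbox K, en (cut K) x =
      ∑ k ∈ range (K + 2), ∑ x ∈ bigbox K with nrm x = k, en (cut K) x := by
    rw [sum_fiberwise_of_maps_to]
    intro x hx
    rw [mem_range]
    have := mem_bigbox.1 hx
    omega
  have h2 : ∀ k ∈ range (K + 2), ∑ x ∈ bigbox K with nrm x = k, en (cut K) x ≤
      if k = 0 then 6 / har K ^ 2 else 48 / har K ^ 2 * (1 / (k : ℝ)) := by
    intro k hk
    have hset : (bigbox K).filter (fun x => nrm x = k) = box k := by
      ext x
      simp only [mem_filter, mem_bigbox, Int.mem_box]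
      rw [mem_range] at hk
      constructor
      · rintro ⟨_, h⟩; exact h
      · intro h
        have h' : nrm x = k := h
        exact ⟨by omega, h'⟩
    rw [hset]
    have h3 : ∀ x ∈ (box k : Finset (ℤ × ℤ)), en (cut K) x ≤
        6 * (1 / (har K * (max k 1 : ℕ))) ^ 2 := by
      intro x hx
      have h4 := en_cut_le hK x
      have h5 : nrm x = k := Int.mem_box.1 hx
      rwa [h5] at h4
    refine (sum_le_card_nsmul _ _ _ h3).trans ?_
    split_ifs with h0
    · subst h0
      simp
      rw [div_eq_mul_inv]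
    · rw [Int.card_box h0, nsmul_eq_mul]
      have hk1 : max k 1 = k := by omega
      rw [hk1]
      have hk0 : (k : ℝ) ≠ 0 := by exact_mod_cast h0
      apply le_of_eq
      push_cast
      field_simp
      ring
  rw [h1]
  refine (sum_le_sum h2).trans ?_
  rw [sum_range_succ']
  have h6 : ∑ k ∈ range (K + 1), (if k + 1 = 0 then 6 / har K ^ 2 else
      48 / har K ^ 2 * (1 / ((k + 1 : ℕ) : ℝ))) = 48 / har K ^ 2 * har (K + 1) := by
    unfold har
    rw [mul_sum]
    apply sum_congr rfl
    intro k _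
    rw [if_neg (by omega)]
    push_cast
    ring
  rw [h6, if_pos rfl, har_succ]
  have h7 : (1 : ℝ) / ((K : ℝ) + 1) ≤ 1 := by
    rw [div_le_one (by positivity)]
    have : (0 : ℝ) ≤ K := by positivity
    linarith
  have h8 : 48 / har K ^ 2 * (har K + 1 / ((K : ℝ) + 1)) ≤ 48 / har K ^ 2 * (har K + 1) := by
    apply mul_le_mul_of_nonneg_left _ (by positivity)
    linarith
  have h9 : 48 / har K ^ 2 * (har K + 1) + 6 / har K ^ 2 = 6 * (9 + 8 * har K) / har K ^ 2 := by
    field_simp
    ring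
  linarith

lemma exists_cut {ε : ℝ} (hε : 0 < ε) : ∃ K : ℕ, 1 ≤ K ∧ ∑ x ∈ bigbox K, en (cut K) x ≤ ε := by
  have h1 : Tendsto har atTop atTop := Real.tendsto_sum_range_one_div_nat_succ_atTop
  have h2 := (h1.eventually_ge_atTop (max 1 (102 / ε))).and (eventually_ge_atTop 1)
  obtain ⟨K, hK, hK1⟩ := h2.exists
  refine ⟨K, hK1, (sum_en_cut hK1).trans ?_⟩
  have hH := har_pos hK1
  have ha : 1 ≤ har K := (le_max_left _ _).trans hK
  have hb : 102 / ε ≤ har K := (le_max_right _ _).trans hK
  rw [div_le_iff₀ (by positivity)]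
  rw [div_le_iff₀ hε] at hb
  nlinarith [mul_le_mul_of_nonneg_left hb hH.le]

lemma cut_zero (K : ℕ) : cut K 0 = 1 := by
  unfold cut nrm
  simpa using prof_zero K

lemma cut_eq_zero {K : ℕ} (hK : 1 ≤ K) {x : ℤ × ℤ} (hx : K ≤ nrm x) : cut K x = 0 :=
  prof_of_le hK hx

end Pool.Agent.Y446.Doyle
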