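import Pool.Agent.Y446.Doyle.Angle

/-!
The energy inequality of one face.
-/

namespace Pool.Agent.Y446.Doyle

open Real

lemma alg_ineq {a b C : ℝ} (e f : ℝ) (ha : |a| ≤ C) (hb : |b| ≤ C) :
    (1 / 4) * (a - b) ^ 2 * (e ^ 2 + f ^ 2) - 2 * C ^ 2 * (e - f) ^ 2 ≤
      (a - b) * (a * e ^ 2 - b * f ^ 2) := by
  have h1 : (a + b) ^ 2 ≤ (2 * C) ^ 2 := by
    apply sq_le_sq'
    · linarith [neg_abs_le a, neg_abs_le b]
    · linarith [le_abs_self a, le_abs_self b]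
  have h2 : 0 ≤ (e - f) ^ 2 := sq_nonneg _
  have h3 : (a + b) ^ 2 * (e - f) ^ 2 ≤ (2 * C) ^ 2 * (e - f) ^ 2 :=
    mul_le_mul_of_nonneg_right h1 h2
  have h4 : 0 ≤ (a - b) ^ 2 * (e - f) ^ 2 := by positivity
  have h5 : 0 ≤ ((a - b) * (e + f) / 2 + (a + b) * (e - f)) ^ 2 := sq_nonneg _
  nlinarith [h3, h4, h5]

lemma inr_le {a b c : ℝ} (ha : 0 < a) (hb : 0 < b) (hc : 0 < c) :
    inr a b c ≤ (a + b) / 2 := by
  apply le_of_sq_le_sq _ (by positivity)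
  rw [inr_sq ha hb hc, div_le_iff₀ (by positivity)]
  nlinarith [mul_pos ha hb, mul_pos (mul_pos ha hb) hc, sq_nonneg (a - b),
    mul_pos ha hc, mul_pos hb hc, mul_nonneg (sq_nonneg (a - b)) hc.le,
    mul_nonneg (sq_nonneg (a + b)) (add_pos ha hb).le]

lemma div_bounds {T s κ : ℝ} (hs : 0 < s) (hT : T ≤ s / 2) (hκ : κ * s ≤ T) :
    κ ≤ T / s ∧ T / s ≤ 1 / 2 := by
  constructor
  · rw [le_div_iff₀ hs]; exact hκ
  · rw [div_le_iff₀ hs]; linarith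

lemma edge_ineq {g κ w1 w2 C : ℝ} (e1 e2 : ℝ) (h1 : |w1| ≤ C) (h2 : |w2| ≤ C) (hg0 : κ ≤ g)
    (hκ : 0 ≤ κ) (hg1 : g ≤ 1 / 2) :
    -(g * ((w1 - w2) * (w1 * e1 ^ 2 - w2 * e2 ^ 2))) ≤
      C ^ 2 * (e1 - e2) ^ 2 - κ / 4 * ((w1 - w2) ^ 2 * (e1 ^ 2 + e2 ^ 2)) := by
  have h := alg_ineq e1 e2 h1 h2
  have hg : 0 ≤ g := hκ.trans hg0
  have h3 := mul_le_mul_of_nonneg_left h hg
  have h4 : κ * ((w1 - w2) ^ 2 * (e1 ^ 2 + e2 ^ 2)) ≤ g * ((w1 - w2) ^ 2 * (e1 ^ 2 + e2 ^ 2)) :=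
    mul_le_mul_of_nonneg_right hg0 (by positivity)
  have h5 : g * (C ^ 2 * (e1 - e2) ^ 2) ≤ 1 / 2 * (C ^ 2 * (e1 - e2) ^ 2) :=
    mul_le_mul_of_nonneg_right hg1 (by positivity)
  nlinarith [h3, h4, h5]

lemma face_ineq (α β γ w1 w2 w3 C : ℝ) (h1 : |w1| ≤ C) (h2 : |w2| ≤ C) (h3 : |w3| ≤ C) :
    ∃ κ : ℝ, 0 < κ ∧ ∀ e1 e2 e3 : ℝ,
    (ang (exp (α + w1)) (exp (β + w2)) (exp (γ + w3)) - ang (exp α) (exp β) (exp γ)) *
        (w1 * e1 ^ 2) +
    (ang (exp (β + w2)) (exp (γ + w3)) (exp (α + w1)) - ang (exp β) (exp γ) (exp α)) *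
        (w2 * e2 ^ 2) +
    (ang (exp (γ + w3)) (exp (α + w1)) (exp (β + w2)) - ang (exp γ) (exp α) (exp β)) *
        (w3 * e3 ^ 2)
    ≤ C ^ 2 * ((e1 - e2) ^ 2 + (e2 - e3) ^ 2 + (e3 - e1) ^ 2) -
      κ * ((w1 - w2) ^ 2 * (e1 ^ 2 + e2 ^ 2) + (w2 - w3) ^ 2 * (e2 ^ 2 + e3 ^ 2) +
        (w3 - w1) ^ 2 * (e3 ^ 2 + e1 ^ 2)) := by
  set K : ℝ := |α| + |β| + |γ| + C with hK
  set m : ℝ := exp (-K) with hm
  set M : ℝ := exp K with hM
  have hmpos : 0 < m := exp_pos _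
  have hMpos : 0 < M := exp_pos _
  set κ : ℝ := Real.sqrt (m ^ 3 / (3 * M)) / (2 * M) with hκ
  have hκpos : 0 < κ := by positivity
  refine ⟨κ / 4, by positivity, fun e1 e2 e3 => ?_⟩
  set G : ℝ → ℝ := fun t =>
    ang (exp (α + t * w1)) (exp (β + t * w2)) (exp (γ + t * w3)) * (w1 * e1 ^ 2) +
    ang (exp (β + t * w2)) (exp (γ + t * w3)) (exp (α + t * w1)) * (w2 * e2 ^ 2) +
    ang (exp (γ + t * w3)) (exp (α + t * w1)) (exp (β + t * w2)) * (w3 * e3 ^ 2) with hG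
  set T : ℝ → ℝ := fun t => inr (exp (α + t * w1)) (exp (β + t * w2)) (exp (γ + t * w3)) with hT
  set G' : ℝ → ℝ := fun t =>
    -(T t / (exp (α + t * w1) + exp (β + t * w2)) * ((w1 - w2) * (w1 * e1 ^ 2 - w2 * e2 ^ 2)))
    + -(T t / (exp (β + t * w2) + exp (γ + t * w3)) * ((w2 - w3) * (w2 * e2 ^ 2 - w3 * e3 ^ 2)))
    + -(T t / (exp (γ + t * w3) + exp (α + t * w1)) * ((w3 - w1) * (w3 * e3 ^ 2 - w1 * e1 ^ 2)))
    with hG'
  have hder : ∀ t, HasDerivAt G (G' t) t := by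
    intro t
    have d1 := (hasDerivAt_ang α β γ w1 w2 w3 t).mul_const (w1 * e1 ^ 2)
    have d2 := (hasDerivAt_ang β γ α w2 w3 w1 t).mul_const (w2 * e2 ^ 2)
    have d3 := (hasDerivAt_ang γ α β w3 w1 w2 t).mul_const (w3 * e3 ^ 2)
    refine ((d1.add d2).add d3).congr_deriv ?_
    have r1 : inr (exp (β + t * w2)) (exp (γ + t * w3)) (exp (α + t * w1)) = T t :=
      (inr_rot _ _ _).symm
    have r2 : inr (exp (γ + t * w3)) (exp (α + t * w1)) (exp (β + t * w2)) = T t :=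
      inr_rot _ _ _
    have r0 : inr (exp (α + t * w1)) (exp (β + t * w2)) (exp (γ + t * w3)) = T t := rfl
    rw [r0, r1, r2]
    have c1 : exp (β + t * w2) + exp (α + t * w1) = exp (α + t * w1) + exp (β + t * w2) :=
      add_comm _ _
    have c2 : exp (γ + t * w3) + exp (β + t * w2) = exp (β + t * w2) + exp (γ + t * w3) :=
      add_comm _ _
    have c3 : exp (α + t * w1) + exp (γ + t * w3) = exp (γ + t * w3) + exp (α + t * w1) :=
      add_comm _ _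
    rw [c1, c2, c3]
    simp only [hG']
    ring
  obtain ⟨ξ, hξ, hslope⟩ := exists_hasDerivAt_eq_slope G G' (zero_lt_one)
    (fun t _ => (hder t).continuousAt.continuousWithinAt) (fun t _ => hder t)
  have hG01 : G 1 - G 0 = G' ξ := by rw [hslope]; ring
  have hlhs : (ang (exp (α + w1)) (exp (β + w2)) (exp (γ + w3)) - ang (exp α) (exp β) (exp γ)) *
        (w1 * e1 ^ 2) +
    (ang (exp (β + w2)) (exp (γ + w3)) (exp (α + w1)) - ang (exp β) (exp γ) (exp α)) *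
        (w2 * e2 ^ 2) +
    (ang (exp (γ + w3)) (exp (α + w1)) (exp (β + w2)) - ang (exp γ) (exp α) (exp β)) *
        (w3 * e3 ^ 2) = G 1 - G 0 := by
    simp only [hG, one_mul, zero_mul, add_zero]
    ring
  rw [hlhs, hG01]
  have hC : 0 ≤ C := (abs_nonneg _).trans h1
  have bound : ∀ x w : ℝ, |x| ≤ |α| + |β| + |γ| → |w| ≤ C →
      m ≤ exp (x + ξ * w) ∧ exp (x + ξ * w) ≤ M := by
    intro x w hx hw
    have h4 : |ξ * w| ≤ C := by
      rw [abs_mul, abs_of_pos hξ.1]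
      nlinarith [hξ.2, abs_nonneg w, hξ.1]
    have h5 := abs_le.1 hx
    have h6 := abs_le.1 h4
    constructor
    · apply exp_le_exp.2; linarith [h5.1, h6.1]
    · apply exp_le_exp.2; linarith [h5.2, h6.2]
  obtain ⟨a1, a2⟩ := bound α w1 (by linarith [abs_nonneg β, abs_nonneg γ]) h1
  obtain ⟨b1, b2⟩ := bound β w2 (by linarith [abs_nonneg α, abs_nonneg γ]) h2
  obtain ⟨c1, c2⟩ := bound γ w3 (by linarith [abs_nonneg β, abs_nonneg α]) h3
  have pa : 0 < exp (α + ξ * w1) := exp_pos _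
  have pb : 0 < exp (β + ξ * w2) := exp_pos _
  have pc : 0 < exp (γ + ξ * w3) := exp_pos _
  have hTl : Real.sqrt (m ^ 3 / (3 * M)) ≤ T ξ := by
    simp only [hT, inr]
    apply Real.sqrt_le_sqrt
    apply div_le_div₀ (by positivity) _ (by positivity) (by linarith)
    calc m ^ 3 = m * m * m := by ring
      _ ≤ _ := by gcongr
  have e12 : T ξ ≤ (exp (α + ξ * w1) + exp (β + ξ * w2)) / 2 := inr_le pa pb pc
  have e23 : T ξ ≤ (exp (β + ξ * w2) + exp (γ + ξ * w3)) / 2 := by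
    have := inr_le pb pc pa
    rwa [← inr_rot] at this
  have e31 : T ξ ≤ (exp (γ + ξ * w3) + exp (α + ξ * w1)) / 2 := by
    have := inr_le pc pa pb
    rwa [inr_rot] at this
  have hκM : κ * (2 * M) = Real.sqrt (m ^ 3 / (3 * M)) := by
    rw [hκ]; field_simp
  have l12 : κ * (exp (α + ξ * w1) + exp (β + ξ * w2)) ≤ T ξ := by
    have : κ * (exp (α + ξ * w1) + exp (β + ξ * w2)) ≤ κ * (2 * M) :=
      mul_le_mul_of_nonneg_left (by linarith) hκpos.le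
    linarith
  have l23 : κ * (exp (β + ξ * w2) + exp (γ + ξ * w3)) ≤ T ξ := by
    have : κ * (exp (β + ξ * w2) + exp (γ + ξ * w3)) ≤ κ * (2 * M) :=
      mul_le_mul_of_nonneg_left (by linarith) hκpos.le
    linarith
  have l31 : κ * (exp (γ + ξ * w3) + exp (α + ξ * w1)) ≤ T ξ := by
    have : κ * (exp (γ + ξ * w3) + exp (α + ξ * w1)) ≤ κ * (2 * M) :=
      mul_le_mul_of_nonneg_left (by linarith) hκpos.le
    linarith
  obtain ⟨x12, y12⟩ := div_bounds (by positivity) e12 l12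
  obtain ⟨x23, y23⟩ := div_bounds (by positivity) e23 l23
  obtain ⟨x31, y31⟩ := div_bounds (by positivity) e31 l31
  have f1 := edge_ineq e1 e2 h1 h2 x12 hκpos.le y12
  have f2 := edge_ineq e2 e3 h2 h3 x23 hκpos.le y23
  have f3 := edge_ineq e3 e1 h3 h1 x31 hκpos.le y31
  simp only [hG']
  linarith

end Pool.Agent.Y446.Doyle
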