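import Pool.Agent.Y446.Doyle.Face
import Pool.Agent.Y446.Doyle.Cutoff

/-!
Liouville theorem for bounded differences of packing labels.
-/

namespace Pool.Agent.Y446.Doyle

open Finset Real

/-- the six directions, in cyclic order -/
def dir : Fin 6 → ℤ × ℤ := ![(1, 0), (0, 1), (-1, 1), (-1, 0), (0, -1), (1, -1)]

/-- the angle sum -/
noncomputable def theta (R : ℤ × ℤ → ℝ) (v : ℤ × ℤ) : ℝ :=
  ∑ k : Fin 6, ang (R v) (R (v + dir k)) (R (v + dir (k + 1)))

lemma theta_eq (R : ℤ × ℤ → ℝ) (v : ℤ × ℤ) : theta R v =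
    ang (R v) (R (v + (1, 0))) (R (v + (0, 1))) +
    ang (R v) (R (v + (0, 1))) (R (v + (-1, 1))) +
    ang (R v) (R (v + (-1, 1))) (R (v + (-1, 0))) +
    ang (R v) (R (v + (-1, 0))) (R (v + (0, -1))) +
    ang (R v) (R (v + (0, -1))) (R (v + (1, -1))) +
    ang (R v) (R (v + (1, -1))) (R (v + (1, 0))) := by
  unfold theta
  rw [Fin.sum_univ_six]
  rfl

/-- difference of the angles at `p` in the face `p q r` -/
noncomputable def dl (u w : ℤ × ℤ → ℝ) (p q r : ℤ × ℤ) : ℝ :=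
  ang (exp (u p + w p)) (exp (u q + w q)) (exp (u r + w r)) -
    ang (exp (u p)) (exp (u q)) (exp (u r))

lemma finite_supp_shift {g : ℤ × ℤ → ℝ} (hg : (Function.support g).Finite) (d : ℤ × ℤ) :
    (Function.support (fun x => g (x + d))).Finite := by
  have : (fun x => g (x + d)) = g ∘ (Equiv.addRight d) := rfl
  rw [this, Function.support_comp_eq_preimage]
  exact hg.preimage (Equiv.injective _).injOn

lemma summable_of_fin {g : ℤ × ℤ → ℝ} (hg : (Function.support g).Finite) : Summable g :=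
  summable_of_hasFiniteSupport hg

lemma liouville_edge (u w : ℤ × ℤ → ℝ) (C : ℝ) (hC : ∀ v, |w v| ≤ C)
    (h0 : ∀ v, theta (fun x => exp (u x)) v = 2 * Real.pi)
    (h1 : ∀ v, theta (fun x => exp (u x + w x)) v = 2 * Real.pi) :
    w 0 = w (1, 0) ∧ w 0 = w (0, 1) := by
  -- the sum of the differences vanishes
  have hsum : ∀ v, dl u w v (v + (1, 0)) (v + (0, 1)) + dl u w v (v + (0, 1)) (v + (-1, 1)) +
      dl u w v (v + (-1, 1)) (v + (-1, 0)) + dl u w v (v + (-1, 0)) (v + (0, -1)) +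
      dl u w v (v + (0, -1)) (v + (1, -1)) + dl u w v (v + (1, -1)) (v + (1, 0)) = 0 := by
    intro v
    have e0 := h0 v
    have e1 := h1 v
    rw [theta_eq] at e0 e1
    unfold dl
    linarith
  -- the inequality at the face `0, (1,0), (0,1)`
  obtain ⟨κ, hκ, hface⟩ := face_ineq (u 0) (u (1, 0)) (u (0, 1)) (w 0) (w (1, 0)) (w (0, 1)) C
    (hC _) (hC _) (hC _)
  have main : ∀ K : ℕ, 1 ≤ K →
      κ * ((w 0 - w (1, 0)) ^ 2 + (w (0, 1) - w 0) ^ 2) ≤
        C ^ 2 * ∑ x ∈ bigbox K, en (cut K) x := by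
    intro K hK
    set η := cut K with hη
    set ψ : ℤ × ℤ → ℝ := fun x => w x * η x ^ 2 with hψ
    -- finite support
    have hfin : ∀ g : ℤ × ℤ → ℝ, (∀ x, K + 1 < nrm x → g x = 0) →
        (Function.support g).Finite := by
      intro g hg
      apply (bigbox K).finite_toSet.subset
      intro x hx
      rw [mem_coe, mem_bigbox]
      by_contra hcon
      exact hx (hg x (by omega))
    have hψ0 : ∀ x, K + 1 < nrm x → ψ x = 0 := by
      intro x hx
      simp only [hψ, hη]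
      rw [cut_eq_zero hK (by omega)]
      ring
    set t0 : ℤ × ℤ → ℝ := fun v => dl u w v (v + (1, 0)) (v + (0, 1)) * ψ v with ht0
    set t1 : ℤ × ℤ → ℝ := fun v => dl u w v (v + (0, 1)) (v + (-1, 1)) * ψ v with ht1
    set t2 : ℤ × ℤ → ℝ := fun v => dl u w v (v + (-1, 1)) (v + (-1, 0)) * ψ v with ht2
    set t3 : ℤ × ℤ → ℝ := fun v => dl u w v (v + (-1, 0)) (v + (0, -1)) * ψ v with ht3
    set t4 : ℤ × ℤ → ℝ := fun v => dl u w v (v + (0, -1)) (v + (1, -1)) * ψ v with ht4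
    set t5 : ℤ × ℤ → ℝ := fun v => dl u w v (v + (1, -1)) (v + (1, 0)) * ψ v with ht5
    have f0 : (Function.support t0).Finite := hfin _ fun x hx => by simp [ht0, hψ0 x hx]
    have f1 : (Function.support t1).Finite := hfin _ fun x hx => by simp [ht1, hψ0 x hx]
    have f2 : (Function.support t2).Finite := hfin _ fun x hx => by simp [ht2, hψ0 x hx]
    have f3 : (Function.support t3).Finite := hfin _ fun x hx => by simp [ht3, hψ0 x hx]
    have f4 : (Function.support t4).Finite := hfin _ fun x hx => by simp [ht4, hψ0 x hx]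
    have f5 : (Function.support t5).Finite := hfin _ fun x hx => by simp [ht5, hψ0 x hx]
    have s0 := summable_of_fin f0
    have s1 := summable_of_fin f1
    have s2 := summable_of_fin f2
    have s3 := summable_of_fin f3
    have s4 := summable_of_fin f4
    have s5 := summable_of_fin f5
    have s2' := summable_of_fin (finite_supp_shift f2 (1, 0))
    have s3' := summable_of_fin (finite_supp_shift f3 (0, 1))
    have s4' := summable_of_fin (finite_supp_shift f4 (0, 1))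
    have s5' := summable_of_fin (finite_supp_shift f5 (-1, 1))
    have e2 : ∑' x, t2 (x + (1, 0)) = ∑' x, t2 x := (Equiv.addRight ((1, 0) : ℤ × ℤ)).tsum_eq t2
    have e3 : ∑' x, t3 (x + (0, 1)) = ∑' x, t3 x := (Equiv.addRight ((0, 1) : ℤ × ℤ)).tsum_eq t3
    have e4 : ∑' x, t4 (x + (0, 1)) = ∑' x, t4 x := (Equiv.addRight ((0, 1) : ℤ × ℤ)).tsum_eq t4
    have e5 : ∑' x, t5 (x + (-1, 1)) = ∑' x, t5 x := (Equiv.addRight ((-1, 1) : ℤ × ℤ)).tsum_eq t5
    -- total is zero
    have htot : ∑' x, (t0 x + t1 x + t2 x + t3 x + t4 x + t5 x) = 0 := by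
      rw [← tsum_zero (β := ℤ × ℤ) (α := ℝ)]
      apply tsum_congr
      intro v
      have := hsum v
      simp only [ht0, ht1, ht2, ht3, ht4, ht5]
      linear_combination ψ v * this
    set FU : ℤ × ℤ → ℝ := fun x => t0 x + t2 (x + (1, 0)) + t4 (x + (0, 1)) with hFU
    set FD : ℤ × ℤ → ℝ := fun x => t1 x + t3 (x + (0, 1)) + t5 (x + (-1, 1)) with hFD
    have hF : ∑' x, (FU x + FD x) = 0 := by
      have a1 : ∑' x, (FU x + FD x) = (∑' x, t0 x + ∑' x, t2 (x + (1, 0)) + ∑' x, t4 (x + (0, 1)))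
          + (∑' x, t1 x + ∑' x, t3 (x + (0, 1)) + ∑' x, t5 (x + (-1, 1))) := by
        rw [Summable.tsum_add ((s0.add s2').add s4') ((s1.add s3').add s5'),
          Summable.tsum_add (s0.add s2') s4', Summable.tsum_add s0 s2',
          Summable.tsum_add (s1.add s3') s5', Summable.tsum_add s1 s3']
      rw [a1, e2, e3, e4, e5]
      rw [Summable.tsum_add ((((s0.add s1).add s2).add s3).add s4) s5,
        Summable.tsum_add (((s0.add s1).add s2).add s3) s4,
        Summable.tsum_add ((s0.add s1).add s2) s3,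
        Summable.tsum_add (s0.add s1) s2, Summable.tsum_add s0 s1] at htot
      linarith
    have sF : Summable (fun x => FU x + FD x) :=
      ((s0.add s2').add s4').add ((s1.add s3').add s5')
    -- explicit formulas
    have hU : ∀ x, FU x = dl u w x (x + (1, 0)) (x + (0, 1)) * (w x * η x ^ 2) +
        dl u w (x + (1, 0)) (x + (0, 1)) x * (w (x + (1, 0)) * η (x + (1, 0)) ^ 2) +
        dl u w (x + (0, 1)) x (x + (1, 0)) * (w (x + (0, 1)) * η (x + (0, 1)) ^ 2) := by
      intro x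
      have c1 : x + (1, 0) + (-1, 1) = x + (0, 1) := by
        rw [add_assoc]; rfl
      have c2 : x + (1, 0) + (-1, 0) = x := by
        rw [add_assoc]; simp
      have c3 : x + (0, 1) + (0, -1) = x := by
        rw [add_assoc]; simp
      have c4 : x + (0, 1) + (1, -1) = x + (1, 0) := by
        rw [add_assoc]; rfl
      simp only [hFU, ht0, ht2, ht4, hψ, c1, c2, c3, c4]
    have hD : ∀ x, FD x = dl u w x (x + (0, 1)) (x + (-1, 1)) * (w x * η x ^ 2) +
        dl u w (x + (0, 1)) (x + (-1, 1)) x * (w (x + (0, 1)) * η (x + (0, 1)) ^ 2) +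
        dl u w (x + (-1, 1)) x (x + (0, 1)) * (w (x + (-1, 1)) * η (x + (-1, 1)) ^ 2) := by
      intro x
      have c1 : x + (0, 1) + (-1, 0) = x + (-1, 1) := by
        rw [add_assoc]; rfl
      have c2 : x + (0, 1) + (0, -1) = x := by
        rw [add_assoc]; simp
      have c3 : x + (-1, 1) + (1, -1) = x := by
        rw [add_assoc]; simp
      have c4 : x + (-1, 1) + (1, 0) = x + (0, 1) := by
        rw [add_assoc]; rfl
      simp only [hFD, ht1, ht3, ht5, hψ, c1, c2, c3, c4]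
    have gen : ∀ p q r : ℤ × ℤ, dl u w p q r * (w p * η p ^ 2) + dl u w q r p * (w q * η q ^ 2) +
        dl u w r p q * (w r * η r ^ 2) ≤
        C ^ 2 * ((η p - η q) ^ 2 + (η q - η r) ^ 2 + (η r - η p) ^ 2) := by
      intro p q r
      obtain ⟨κ', hκ', hf'⟩ := face_ineq (u p) (u q) (u r) (w p) (w q) (w r) C (hC _) (hC _) (hC _)
      have := hf' (η p) (η q) (η r)
      unfold dl
      have hn : 0 ≤ κ' * ((w p - w q) ^ 2 * (η p ^ 2 + η q ^ 2) +
        (w q - w r) ^ 2 * (η q ^ 2 + η r ^ 2) + (w r - w p) ^ 2 * (η r ^ 2 + η p ^ 2)) := by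
        positivity
      linarith
    have hle : ∀ x, FU x + FD x ≤ C ^ 2 * en η x := by
      intro x
      rw [hU, hD]
      unfold en
      have := gen x (x + (1, 0)) (x + (0, 1))
      have := gen x (x + (0, 1)) (x + (-1, 1))
      linarith
    have hle0 : FU 0 + FD 0 ≤ C ^ 2 * en η 0 -
        κ * ((w 0 - w (1, 0)) ^ 2 + (w (0, 1) - w 0) ^ 2) := by
      have h2 := gen 0 (0 + (0, 1)) (0 + (-1, 1))
      have h3 : dl u w 0 (1, 0) (0, 1) * (w 0 * η 0 ^ 2) +
          dl u w (1, 0) (0, 1) 0 * (w (1, 0) * η (1, 0) ^ 2) +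
          dl u w (0, 1) 0 (1, 0) * (w (0, 1) * η (0, 1) ^ 2) ≤ _ :=
        hface (η 0) (η (1, 0)) (η (0, 1))
      have h4 : η 0 = 1 := cut_zero K
      have h5 : 0 ≤ κ * ((w 0 - w (1, 0)) ^ 2 * (η (1, 0)) ^ 2 + (w (1, 0) - w (0, 1)) ^ 2 *
        (η (1, 0) ^ 2 + η (0, 1) ^ 2) + (w (0, 1) - w 0) ^ 2 * (η (0, 1)) ^ 2) := by positivity
      have hU0 := hU 0
      have hD0 := hD 0
      rw [zero_add, zero_add] at hU0 hD0 h2
      have hen : en η 0 = ((η 0 - η (1, 0)) ^ 2 + (η (1, 0) - η (0, 1)) ^ 2 +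
          (η (0, 1) - η 0) ^ 2) + ((η 0 - η (0, 1)) ^ 2 + (η (0, 1) - η (-1, 1)) ^ 2 +
          (η (-1, 1) - η 0) ^ 2) := by
        unfold en; simp only [zero_add]
      rw [hU0, hD0, hen]
      have h6 : κ * ((w 0 - w (1, 0)) ^ 2 * (η 0 ^ 2 + η (1, 0) ^ 2) +
          (w (1, 0) - w (0, 1)) ^ 2 * (η (1, 0) ^ 2 + η (0, 1) ^ 2) +
          (w (0, 1) - w 0) ^ 2 * (η (0, 1) ^ 2 + η 0 ^ 2)) =
          κ * ((w 0 - w (1, 0)) ^ 2 + (w (0, 1) - w 0) ^ 2) +
          κ * ((w 0 - w (1, 0)) ^ 2 * (η (1, 0)) ^ 2 + (w (1, 0) - w (0, 1)) ^ 2 *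
        (η (1, 0) ^ 2 + η (0, 1) ^ 2) + (w (0, 1) - w 0) ^ 2 * (η (0, 1)) ^ 2) := by
        rw [h4]; ring
      rw [h6] at h3
      linarith
    have hsumle : ∑' x, (FU x + FD x) ≤ ∑ x ∈ bigbox K, (FU x + FD x) := by
      apply le_of_eq
      apply tsum_eq_sum
      intro x hx
      rw [mem_bigbox] at hx
      have hn := hη
      have z0 : η x = 0 := cut_eq_zero hK (by omega)
      have z1 : η (x + (1, 0)) = 0 := cut_eq_zero hK (by
        unfold nrm at *; simp only [Prod.fst_add, Prod.snd_add]; omega)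
      have z2 : η (x + (0, 1)) = 0 := cut_eq_zero hK (by
        unfold nrm at *; simp only [Prod.fst_add, Prod.snd_add]; omega)
      have z3 : η (x + (-1, 1)) = 0 := cut_eq_zero hK (by
        unfold nrm at *; simp only [Prod.fst_add, Prod.snd_add]; omega)
      rw [hU, hD, z0, z1, z2, z3]
      ring
    rw [hF] at hsumle
    have h0mem : (0 : ℤ × ℤ) ∈ bigbox K := by
      rw [mem_bigbox]; simp [nrm]
    rw [← Finset.add_sum_erase _ _ h0mem] at hsumle
    have h6 : ∑ x ∈ (bigbox K).erase 0, (FU x + FD x) ≤ ∑ x ∈ (bigbox K).erase 0, C ^ 2 * en η x :=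
      sum_le_sum fun x _ => hle x
    rw [← mul_sum] at h6
    have h7 : C ^ 2 * ∑ x ∈ bigbox K, en η x =
        C ^ 2 * en η 0 + C ^ 2 * ∑ x ∈ (bigbox K).erase 0, en η x := by
      rw [← Finset.add_sum_erase (bigbox K) (en η) h0mem, mul_add]
    rw [h7]
    linarith
  -- conclusion
  clear hface hsum h0 h1
  generalize hS1 : w 0 - w (1, 0) = S1 at main
  generalize hS2 : w (0, 1) - w 0 = S2 at main
  have hfinal : S1 ^ 2 + S2 ^ 2 ≤ 0 := by
    by_contra hcon
    push Not at hcon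
    have hκS : 0 < κ * (S1 ^ 2 + S2 ^ 2) := mul_pos hκ hcon
    have hε : 0 < κ * (S1 ^ 2 + S2 ^ 2) / (2 * (C ^ 2 + 1)) := by positivity
    obtain ⟨K, hK, hKe⟩ := exists_cut hε
    have h3 := main K hK
    have h4 : C ^ 2 * ∑ x ∈ bigbox K, en (cut K) x ≤
        C ^ 2 * (κ * (S1 ^ 2 + S2 ^ 2) / (2 * (C ^ 2 + 1))) :=
      mul_le_mul_of_nonneg_left hKe (by positivity)
    have h5 : C ^ 2 * (κ * (S1 ^ 2 + S2 ^ 2) / (2 * (C ^ 2 + 1))) ≤
        κ * (S1 ^ 2 + S2 ^ 2) / 2 := by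
      rw [mul_div_assoc', div_le_div_iff₀ (by positivity) (by norm_num)]
      nlinarith [mul_nonneg (sq_nonneg C) hκS.le]
    linarith
  have a1 : S1 = 0 := by
    have : S1 ^ 2 = 0 := by nlinarith [sq_nonneg S1, sq_nonneg S2]
    exact pow_eq_zero_iff (two_ne_zero) |>.1 this
  have a2 : S2 = 0 := by
    have : S2 ^ 2 = 0 := by nlinarith [sq_nonneg S1, sq_nonneg S2]
    exact pow_eq_zero_iff (two_ne_zero) |>.1 this
  constructor <;> linarith

end Pool.Agent.Y446.Doyle
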