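import Pool.Agent.Y446.Doyle.Angle

/-!
Ring lemma for hexagonal flowers.
-/

namespace Pool.Agent.Y446.Doyle

open Finset Real

/-- iterated constants -/
noncomputable def cc : ℕ → ℝ
  | 0 => 1 / 3
  | n + 1 => cc n ^ 2 / 8

lemma cc_pos (n : ℕ) : 0 < cc n := by
  induction n with
  | zero => norm_num [cc]
  | succ n ih => unfold cc; positivity

lemma block_step {f : ℤ → ℝ} (h0 : ∀ k, 0 < f k) (h1 : ∀ k, f k ≤ 1)
    (hpair : ∀ (a : ℤ) (m : ℕ), 1 ≤ m → m ≤ 5 →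
      f a * f (a + m) ≤ (π / 2) * ∑ j ∈ range m, f (a + j) * f (a + j + 1))
    {m : ℕ} (hm1 : 1 ≤ m) (hm4 : m ≤ 4) {ε : ℝ} (hε0 : 0 < ε) (hε : ε ≤ 8)
    (hP : ∃ a : ℤ, ∀ j : ℕ, j < m → f (a + j) ≤ ε) :
    ∃ a : ℤ, ∀ j : ℕ, j < m + 1 → f (a + j) ≤ Real.sqrt (8 * ε) := by
  obtain ⟨a, ha⟩ := hP
  have hle : ε ≤ Real.sqrt (8 * ε) := by
    apply Real.le_sqrt_of_sq_le
    nlinarith
  have hsum : ∑ j ∈ range (m + 1), f (a - 1 + j) * f (a - 1 + j + 1) ≤ (m + 1) * ε := by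
    have : ∀ j ∈ range (m + 1), f (a - 1 + j) * f (a - 1 + j + 1) ≤ ε := by
      intro j hj
      rw [mem_range] at hj
      rcases Nat.lt_or_ge j m with h | h
      · have h2 : a - 1 + (j : ℤ) + 1 = a + j := by ring
        rw [h2]
        have := ha j h
        nlinarith [h0 (a - 1 + j), h1 (a - 1 + j), h0 (a + j)]
      · obtain rfl : j = m := by omega
        obtain ⟨i, rfl⟩ : ∃ i, j = i + 1 := ⟨j - 1, by omega⟩
        have h2 : a - 1 + ((i + 1 : ℕ) : ℤ) = a + i := by push_cast; ring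
        rw [h2]
        have := ha i (by omega)
        nlinarith [h0 (a + i), h1 (a + i + 1), h0 (a + i + 1)]
    have h3 := sum_le_card_nsmul _ _ _ this
    rw [card_range, nsmul_eq_mul] at h3
    exact_mod_cast h3
  have hp := hpair (a - 1) (m + 1) (by omega) (by omega)
  have hend : a - 1 + ((m + 1 : ℕ) : ℤ) = a + m := by push_cast; ring
  rw [hend] at hp
  have hpi : π ≤ 3.2 := by linarith [Real.pi_lt_d2]
  have hm' : (m : ℝ) + 1 ≤ 5 := by
    have : (m : ℝ) ≤ 4 := by exact_mod_cast hm4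
    linarith
  have hprod : f (a - 1) * f (a + m) ≤ 8 * ε := by
    have h4 : (π / 2) * ∑ j ∈ range (m + 1), f (a - 1 + j) * f (a - 1 + j + 1) ≤
        (π / 2) * ((m + 1) * ε) := mul_le_mul_of_nonneg_left hsum (by positivity)
    have h5 : (π / 2) * (((m : ℝ) + 1) * ε) ≤ 8 * ε := by
      have : (π / 2) * ((m : ℝ) + 1) ≤ 1.6 * 5 := by
        apply mul_le_mul _ hm' (by positivity) (by norm_num)
        linarith
      nlinarith
    linarith
  rcases le_or_gt (f (a - 1)) (Real.sqrt (8 * ε)) with h | h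
  · refine ⟨a - 1, fun j hj => ?_⟩
    rcases Nat.eq_zero_or_pos j with hj0 | hj0
    · subst hj0; simpa using h
    · obtain ⟨i, rfl⟩ : ∃ i, j = i + 1 := ⟨j - 1, by omega⟩
      have h2 : a - 1 + ((i + 1 : ℕ) : ℤ) = a + i := by push_cast; ring
      rw [h2]
      exact (ha i (by omega)).trans hle
  · refine ⟨a, fun j hj => ?_⟩
    rcases Nat.lt_or_ge j m with hjm | hjm
    · exact (ha j hjm).trans hle
    · obtain rfl : j = m := by omega
      by_contra hcon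
      push Not at hcon
      have h6 : Real.sqrt (8 * ε) * Real.sqrt (8 * ε) = 8 * ε :=
        Real.mul_self_sqrt (by positivity)
      have h7 : 0 < Real.sqrt (8 * ε) := Real.sqrt_pos.2 (by positivity)
      have h8 : Real.sqrt (8 * ε) * Real.sqrt (8 * ε) < f (a - 1) * f (a + j) :=
        mul_lt_mul'' h hcon h7.le h7.le
      linarith

lemma comb {f : ℤ → ℝ} (h0 : ∀ k, 0 < f k) (h1 : ∀ k, f k ≤ 1)
    (hpair : ∀ (a : ℤ) (m : ℕ), 1 ≤ m → m ≤ 5 →
      f a * f (a + m) ≤ (π / 2) * ∑ j ∈ range m, f (a + j) * f (a + j + 1))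
    (htot : ∀ a : ℤ, 2 ≤ ∑ j ∈ range 6, f (a + j) * f (a + j + 1)) (k : ℤ) : cc 4 ≤ f k := by
  have g8 : ∀ x : ℝ, x ≤ 8 → Real.sqrt (8 * x) ≤ 8 := by
    intro x hx
    rw [Real.sqrt_le_left (by norm_num)]
    linarith
  set e0 := f k with he0
  set e1 := Real.sqrt (8 * e0) with he1
  set e2 := Real.sqrt (8 * e1) with he2
  set e3 := Real.sqrt (8 * e2) with he3
  set e4 := Real.sqrt (8 * e3) with he4
  have p0 : 0 < e0 := h0 k
  have p1 : 0 < e1 := Real.sqrt_pos.2 (by positivity)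
  have p2 : 0 < e2 := Real.sqrt_pos.2 (by positivity)
  have p3 : 0 < e3 := Real.sqrt_pos.2 (by positivity)
  have p4 : 0 < e4 := Real.sqrt_pos.2 (by positivity)
  have l0 : e0 ≤ 8 := (h1 k).trans (by norm_num)
  have l1 : e1 ≤ 8 := g8 _ l0
  have l2 : e2 ≤ 8 := g8 _ l1
  have l3 : e3 ≤ 8 := g8 _ l2
  have b1 : ∃ a : ℤ, ∀ j : ℕ, j < 1 → f (a + j) ≤ e0 := by
    refine ⟨k, fun j hj => ?_⟩
    obtain rfl : j = 0 := by omega
    simp [he0]
  have b2 := block_step h0 h1 hpair (by norm_num) (by norm_num) p0 l0 b1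
  have b3 := block_step h0 h1 hpair (by norm_num) (by norm_num) p1 l1 b2
  have b4 := block_step h0 h1 hpair (by norm_num) (by norm_num) p2 l2 b3
  have b5 := block_step h0 h1 hpair (by norm_num) (by norm_num) p3 l3 b4
  obtain ⟨a, ha⟩ := b5
  have hfin : (1 : ℝ) / 3 ≤ e4 := by
    have ht := htot (a - 1)
    have : ∀ j ∈ range 6, f (a - 1 + j) * f (a - 1 + j + 1) ≤ e4 := by
      intro j hj
      rw [mem_range] at hj
      rcases Nat.lt_or_ge j 5 with h | h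
      · have h2 : a - 1 + (j : ℤ) + 1 = a + j := by ring
        rw [h2]
        have := ha j (by omega)
        nlinarith [h0 (a - 1 + j), h1 (a - 1 + j), h0 (a + j)]
      · obtain rfl : j = 5 := by omega
        have h2 : a - 1 + ((5 : ℕ) : ℤ) = a + ((4 : ℕ) : ℤ) := by push_cast; ring
        rw [h2]
        have := ha 4 (by omega)
        nlinarith [h0 (a + ((4 : ℕ) : ℤ)), h1 (a + ((4 : ℕ) : ℤ) + 1),
          h0 (a + ((4 : ℕ) : ℤ) + 1)]
    have h3 := sum_le_card_nsmul _ _ _ this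
    rw [card_range, nsmul_eq_mul] at h3
    push_cast at h3
    linarith
  have step : ∀ (y x : ℝ) (n : ℕ), 0 < x → cc n ≤ Real.sqrt (8 * x) → cc (n + 1) ≤ x := by
    intro _ x n hx h
    have hc := cc_pos n
    have h2 : cc n ^ 2 ≤ 8 * x := by
      have := pow_le_pow_left₀ hc.le h 2
      rwa [Real.sq_sqrt (by positivity)] at this
    show cc n ^ 2 / 8 ≤ x
    linarith
  have s0 : cc 0 ≤ e4 := hfin
  have s1 : cc 1 ≤ e3 := step 0 _ _ p3 s0
  have s2 : cc 2 ≤ e2 := step 0 _ _ p2 s1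
  have s3 : cc 3 ≤ e1 := step 0 _ _ p1 s2
  exact step 0 _ _ p0 s3

/-- A flower: six circles of radii `ρ` around a circle of radius `r`, indices modulo `6`. -/
structure Flower (r : ℝ) (ρ : ℤ → ℝ) (p : ℤ → ℂ) : Prop where
  r_pos : 0 < r
  rho_pos : ∀ k, 0 < ρ k
  norm_p : ∀ k, ‖p k‖ = r + ρ k
  tang : ∀ k, ‖p k - p (k + 1)‖ = ρ k + ρ (k + 1)
  ori : ∀ k, 0 < ((starRingEnd ℂ) (p k) * p (k + 1)).im
  tot : ∀ a : ℤ, ∑ j ∈ range 6, ang r (ρ (a + j)) (ρ (a + j + 1)) = 2 * π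
  sep : ∀ (a : ℤ) (m : ℕ), 1 ≤ m → m ≤ 5 → ρ a + ρ (a + m) ≤ ‖p a - p (a + m)‖

lemma norm_sub_sq_complex (a b : ℂ) :
    ‖a - b‖ ^ 2 = ‖a‖ ^ 2 + ‖b‖ ^ 2 - 2 * ((starRingEnd ℂ) a * b).re := by
  rw [← Complex.normSq_eq_norm_sq, ← Complex.normSq_eq_norm_sq, ← Complex.normSq_eq_norm_sq]
  simp only [Complex.normSq_apply, Complex.sub_re, Complex.sub_im, Complex.mul_re,
    Complex.conj_re, Complex.conj_im]
  ring

section

variable {r : ℝ} {ρ : ℤ → ℝ} {p : ℤ → ℂ}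

lemma Flower.step (h : Flower r ρ p) (k : ℤ) :
    p (k + 1) * ((r + ρ k : ℝ) : ℂ) = p k * ((r + ρ (k + 1) : ℝ) : ℂ) *
      Complex.exp ((ang r (ρ k) (ρ (k + 1)) : ℝ) * Complex.I) := by
  have hr := h.r_pos
  have h1 := h.rho_pos k
  have h2 := h.rho_pos (k + 1)
  set α := ang r (ρ k) (ρ (k + 1)) with hα
  have hα0 : 0 < α := ang_pos hr h1 h2
  have hαpi : α < π := ang_lt_pi hr h1 h2
  have hcos : Real.cos α = ((r + ρ k) ^ 2 + (r + ρ (k + 1)) ^ 2 - (ρ k + ρ (k + 1)) ^ 2) /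
      (2 * (r + ρ k) * (r + ρ (k + 1))) := cos_ang hr h1 h2
  have hn1 := h.norm_p k
  have hn2 := h.norm_p (k + 1)
  have ht := h.tang k
  have hsq := norm_sub_sq_complex (p k) (p (k + 1))
  rw [ht, hn1, hn2] at hsq
  set A := r + ρ k with hA
  set B := r + ρ (k + 1) with hB
  have hA0 : 0 < A := by positivity
  have hB0 : 0 < B := by positivity
  set q := (starRingEnd ℂ) (p k) * p (k + 1) with hq
  have hre : q.re = A * B * Real.cos α := by
    rw [hcos]
    field_simp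
    linarith
  have hqn : Complex.normSq q = (A * B) ^ 2 := by
    rw [hq, Complex.normSq_mul, Complex.normSq_conj, Complex.normSq_eq_norm_sq,
      Complex.normSq_eq_norm_sq, hn1, hn2]
    ring
  have hsin : 0 < Real.sin α := Real.sin_pos_of_pos_of_lt_pi hα0 hαpi
  have him : q.im = A * B * Real.sin α := by
    have h3 : q.im ^ 2 = (A * B * Real.sin α) ^ 2 := by
      rw [Complex.normSq_apply, hre] at hqn
      have := Real.sin_sq_add_cos_sq α
      nlinarith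
    have h4 : 0 < q.im := h.ori k
    have h5 : 0 < A * B * Real.sin α := by positivity
    exact (pow_left_inj₀ h4.le h5.le two_ne_zero).1 h3
  have hqe : q = (A * B : ℝ) * Complex.exp ((α : ℝ) * Complex.I) := by
    apply Complex.ext
    · rw [hre, Complex.re_ofReal_mul, Complex.exp_ofReal_mul_I_re]
    · rw [him, Complex.im_ofReal_mul, Complex.exp_ofReal_mul_I_im]
  have hpp : p k * (starRingEnd ℂ) (p k) = ((A ^ 2 : ℝ) : ℂ) := by
    rw [Complex.mul_conj, Complex.normSq_eq_norm_sq, hn1]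
  have hAc : (A : ℂ) ≠ 0 := by exact_mod_cast hA0.ne'
  have h6 : p k * q = ((A ^ 2 : ℝ) : ℂ) * p (k + 1) := by
    rw [hq, ← mul_assoc, hpp]
  rw [hqe] at h6
  push_cast at h6 ⊢
  apply mul_left_cancel₀ hAc
  linear_combination -h6

lemma Flower.steps (h : Flower r ρ p) (k : ℤ) (m : ℕ) :
    p (k + m) * ((r + ρ k : ℝ) : ℂ) = p k * ((r + ρ (k + m) : ℝ) : ℂ) *
      Complex.exp ((∑ j ∈ range m, ang r (ρ (k + j)) (ρ (k + j + 1)) : ℝ) * Complex.I) := by
  induction m with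
  | zero => simp
  | succ m ih =>
    have h1 := h.step (k + m)
    have h2 : k + ((m + 1 : ℕ) : ℤ) = k + m + 1 := by push_cast; ring
    rw [h2, sum_range_succ]
    have hexp : ∀ x y : ℝ, Complex.exp (((x + y : ℝ) : ℂ) * Complex.I) =
        Complex.exp ((x : ℂ) * Complex.I) * Complex.exp ((y : ℂ) * Complex.I) := by
      intro x y
      rw [← Complex.exp_add]
      push_cast
      ring_nf
    rw [hexp]
    have hne : ((r + ρ (k + m) : ℝ) : ℂ) ≠ 0 := by
      have := h.r_pos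
      have := h.rho_pos (k + m)
      have : 0 < r + ρ (k + m) := by positivity
      exact_mod_cast this.ne'
    apply mul_left_cancel₀ hne
    linear_combination ((r + ρ k : ℝ) : ℂ) * h1 + ((r + ρ (k + m + 1) : ℝ) : ℂ) *
      Complex.exp ((ang r (ρ (k + m)) (ρ (k + m + 1)) : ℝ) * Complex.I) * ih

/-- `√(ρ / (r + ρ))` -/
noncomputable def ss (r : ℝ) (ρ : ℤ → ℝ) (k : ℤ) : ℝ := Real.sqrt (ρ k / (r + ρ k))

lemma ss_pos (h : Flower r ρ p) (k : ℤ) : 0 < ss r ρ k := by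
  have := h.r_pos
  have := h.rho_pos k
  unfold ss
  positivity

lemma ss_sq (h : Flower r ρ p) (k : ℤ) : ss r ρ k ^ 2 = ρ k / (r + ρ k) := by
  have := h.r_pos
  have := h.rho_pos k
  unfold ss
  rw [Real.sq_sqrt (by positivity)]

lemma ss_le_one (h : Flower r ρ p) (k : ℤ) : ss r ρ k ≤ 1 := by
  have := h.r_pos
  have := h.rho_pos k
  unfold ss
  rw [Real.sqrt_le_one]
  · rw [div_le_one (by positivity)]
    linarith

lemma half_ang_le (h : Flower r ρ p) (k : ℤ) :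
    ang r (ρ k) (ρ (k + 1)) / 2 ≤ π / 2 * (ss r ρ k * ss r ρ (k + 1)) := by
  have hr := h.r_pos
  have h1 := h.rho_pos k
  have h2 := h.rho_pos (k + 1)
  set α := ang r (ρ k) (ρ (k + 1)) with hα
  have hα0 : 0 < α := ang_pos hr h1 h2
  have hαpi : α < π := ang_lt_pi hr h1 h2
  have hcos : Real.cos α = ((r + ρ k) ^ 2 + (r + ρ (k + 1)) ^ 2 - (ρ k + ρ (k + 1)) ^ 2) /
      (2 * (r + ρ k) * (r + ρ (k + 1))) := cos_ang hr h1 h2
  have hs : Real.sin (α / 2) = ss r ρ k * ss r ρ (k + 1) := by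
    have h3 : Real.sin (α / 2) ^ 2 = (ss r ρ k * ss r ρ (k + 1)) ^ 2 := by
      rw [mul_pow, ss_sq h, ss_sq h, Real.sin_sq_eq_half_sub, mul_div_cancel₀ _ (two_ne_zero), hcos]
      field_simp
      ring
    have h4 : 0 ≤ Real.sin (α / 2) :=
      Real.sin_nonneg_of_nonneg_of_le_pi (by linarith) (by linarith)
    have h5 : 0 ≤ ss r ρ k * ss r ρ (k + 1) := (mul_pos (ss_pos h k) (ss_pos h (k + 1))).le
    exact (pow_left_inj₀ h4 h5 two_ne_zero).1 h3
  have hj := Real.mul_le_sin (x := α / 2) (by linarith) (by linarith)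
  rw [hs] at hj
  have hpi := Real.pi_pos
  have : α / 2 = π / 2 * (2 / π * (α / 2)) := by field_simp
  rw [this]
  exact mul_le_mul_of_nonneg_left hj (by positivity)

lemma pair_le (h : Flower r ρ p) (a : ℤ) (m : ℕ) (hm : 1 ≤ m) (hm5 : m ≤ 5) :
    ss r ρ a * ss r ρ (a + m) ≤
      (π / 2) * ∑ j ∈ range m, ss r ρ (a + j) * ss r ρ (a + j + 1) := by
  have hr := h.r_pos
  have h1 := h.rho_pos a
  have h2 := h.rho_pos (a + m)
  set δ := ∑ j ∈ range m, ang r (ρ (a + j)) (ρ (a + j + 1)) with hδ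
  have hδ0 : 0 ≤ δ := sum_nonneg fun j _ => (ang_pos hr (h.rho_pos _) (h.rho_pos _)).le
  have hst := h.steps a m
  rw [← hδ] at hst
  have hn1 := h.norm_p a
  have hn2 := h.norm_p (a + m)
  have hsep := h.sep a m hm hm5
  have hsq := norm_sub_sq_complex (p a) (p (a + m))
  have hre : ((starRingEnd ℂ) (p a) * p (a + m)).re = (r + ρ a) * (r + ρ (a + m)) * Real.cos δ := by
    have hA0 : 0 < r + ρ a := by positivity
    have hAc : ((r + ρ a : ℝ) : ℂ) ≠ 0 := by exact_mod_cast hA0.ne'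
    have hpp : (starRingEnd ℂ) (p a) * p a = (((r + ρ a) ^ 2 : ℝ) : ℂ) := by
      rw [mul_comm, Complex.mul_conj, Complex.normSq_eq_norm_sq, hn1]
    have h6 : (starRingEnd ℂ) (p a) * p (a + m) =
        (((r + ρ a) * (r + ρ (a + m)) : ℝ) : ℂ) * Complex.exp ((δ : ℝ) * Complex.I) := by
      apply mul_left_cancel₀ hAc
      have e1 : ((r + ρ a : ℝ) : ℂ) * ((starRingEnd ℂ) (p a) * p (a + m)) =
          (starRingEnd ℂ) (p a) * (p (a + m) * ((r + ρ a : ℝ) : ℂ)) := by ring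
      rw [e1, hst]
      have e2 : (starRingEnd ℂ) (p a) * (p a * ((r + ρ (a + m) : ℝ) : ℂ) *
          Complex.exp ((δ : ℝ) * Complex.I)) = ((starRingEnd ℂ) (p a) * p a) *
          ((r + ρ (a + m) : ℝ) : ℂ) * Complex.exp ((δ : ℝ) * Complex.I) := by ring
      rw [e2, hpp]
      push_cast
      ring
    rw [h6, Complex.re_ofReal_mul, Complex.exp_ofReal_mul_I_re]
  rw [hre, hn1, hn2] at hsq
  have hsep2 : (ρ a + ρ (a + m)) ^ 2 ≤ ‖p a - p (a + m)‖ ^ 2 :=
    pow_le_pow_left₀ (by positivity) hsep 2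
  rw [hsq] at hsep2
  have hsin : (ss r ρ a * ss r ρ (a + m)) ^ 2 ≤ Real.sin (δ / 2) ^ 2 := by
    rw [mul_pow, ss_sq h, ss_sq h, Real.sin_sq_eq_half_sub, mul_div_cancel₀ _ (two_ne_zero)]
    rw [div_mul_div_comm, div_le_iff₀ (by positivity)]
    nlinarith
  have hsle : (ss r ρ a * ss r ρ (a + m)) ^ 2 ≤ (δ / 2) ^ 2 := by
    refine hsin.trans ?_
    have := Real.sin_le (x := δ / 2) (by positivity)
    have h7 := abs_le.1 (Real.abs_sin_le_abs (x := δ / 2))
    rw [abs_of_nonneg (by positivity : (0 : ℝ) ≤ δ / 2)] at h7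
    exact sq_le_sq' h7.1 h7.2
  have hle : ss r ρ a * ss r ρ (a + m) ≤ δ / 2 :=
    le_of_sq_le_sq hsle (by positivity)
  refine hle.trans ?_
  rw [hδ, sum_div, mul_sum]
  exact sum_le_sum fun j _ => half_ang_le h (a + j)

/-- **Ring lemma.** -/
theorem Flower.ring (h : Flower r ρ p) (k : ℤ) : cc 4 ^ 2 * r ≤ ρ k := by
  have hr := h.r_pos
  have h1 := h.rho_pos k
  have hc := comb (f := ss r ρ) (ss_pos h) (ss_le_one h) (pair_le h) (by
    intro a
    have ht := h.tot a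
    have h2 : ∑ j ∈ range 6, ang r (ρ (a + j)) (ρ (a + j + 1)) / 2 ≤
        ∑ j ∈ range 6, π / 2 * (ss r ρ (a + j) * ss r ρ (a + j + 1)) :=
      sum_le_sum fun j _ => half_ang_le h (a + j)
    rw [← sum_div, ht, ← mul_sum] at h2
    have hpi := Real.pi_pos
    nlinarith) k
  have h3 : cc 4 ^ 2 ≤ ρ k / (r + ρ k) := by
    rw [← ss_sq h]
    exact pow_le_pow_left₀ (cc_pos 4).le hc 2
  rw [le_div_iff₀ (by positivity)] at h3
  nlinarith [mul_nonneg (sq_nonneg (cc 4)) h1.le]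

end

end Pool.Agent.Y446.Doyle
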