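import Pool.Agent.Y446.Doyle.Liouville
import Pool.Agent.Y446.Doyle.Ring

/-!
Locally univalent hexagonal circle packings are regular or Doyle spirals.
-/

namespace Pool.Agent.Y446.Doyle

open Finset Real

/-- index modulo six -/
def tf (k : ℤ) : Fin 6 := ⟨(k % 6).toNat, by omega⟩

lemma tf_add_one (k : ℤ) : tf (k + 1) = tf k + 1 := by
  apply Fin.ext
  simp only [tf, Fin.val_add, Fin.val_one]
  omega

lemma tf_ne {a : ℤ} {m : ℕ} (h1 : 1 ≤ m) (h5 : m ≤ 5) : tf a ≠ tf (a + m) := by
  intro h
  have h2 := congrArg Fin.val h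
  simp only [tf] at h2
  omega

lemma tf_val (k : Fin 6) : tf ((k : ℕ) : ℤ) = k := by
  apply Fin.ext
  simp only [tf]
  have := k.2
  omega

lemma sum_tf (g : Fin 6 → ℝ) (a : ℤ) :
    ∑ j ∈ range 6, g (tf (a + j)) = ∑ k : Fin 6, g k := by
  have h1 : ∀ j : ℕ, tf (a + j) = tf (a % 6 + j) := by
    intro j
    apply Fin.ext
    simp only [tf]
    omega
  simp only [h1]
  have h2 : 0 ≤ a % 6 := Int.emod_nonneg _ (by norm_num)
  have h3 : a % 6 < 6 := Int.emod_lt_of_pos _ (by norm_num)
  generalize a % 6 = r at h2 h3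
  rw [Fin.sum_univ_six]
  simp only [sum_range_succ, range_zero, sum_empty, zero_add]
  interval_cases r
  · have e0 : tf (0 + ((0 : ℕ) : ℤ)) = 0 := by decide
    have e1 : tf (0 + ((1 : ℕ) : ℤ)) = 1 := by decide
    have e2 : tf (0 + ((2 : ℕ) : ℤ)) = 2 := by decide
    have e3 : tf (0 + ((3 : ℕ) : ℤ)) = 3 := by decide
    have e4 : tf (0 + ((4 : ℕ) : ℤ)) = 4 := by decide
    have e5 : tf (0 + ((5 : ℕ) : ℤ)) = 5 := by decide
    rw [e0, e1, e2, e3, e4, e5]
  · have e0 : tf (1 + ((0 : ℕ) : ℤ)) = 1 := by decide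
    have e1 : tf (1 + ((1 : ℕ) : ℤ)) = 2 := by decide
    have e2 : tf (1 + ((2 : ℕ) : ℤ)) = 3 := by decide
    have e3 : tf (1 + ((3 : ℕ) : ℤ)) = 4 := by decide
    have e4 : tf (1 + ((4 : ℕ) : ℤ)) = 5 := by decide
    have e5 : tf (1 + ((5 : ℕ) : ℤ)) = 0 := by decide
    rw [e0, e1, e2, e3, e4, e5]; ring
  · have e0 : tf (2 + ((0 : ℕ) : ℤ)) = 2 := by decide
    have e1 : tf (2 + ((1 : ℕ) : ℤ)) = 3 := by decide
    have e2 : tf (2 + ((2 : ℕ) : ℤ)) = 4 := by decide
    have e3 : tf (2 + ((3 : ℕ) : ℤ)) = 5 := by decide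
    have e4 : tf (2 + ((4 : ℕ) : ℤ)) = 0 := by decide
    have e5 : tf (2 + ((5 : ℕ) : ℤ)) = 1 := by decide
    rw [e0, e1, e2, e3, e4, e5]; ring
  · have e0 : tf (3 + ((0 : ℕ) : ℤ)) = 3 := by decide
    have e1 : tf (3 + ((1 : ℕ) : ℤ)) = 4 := by decide
    have e2 : tf (3 + ((2 : ℕ) : ℤ)) = 5 := by decide
    have e3 : tf (3 + ((3 : ℕ) : ℤ)) = 0 := by decide
    have e4 : tf (3 + ((4 : ℕ) : ℤ)) = 1 := by decide
    have e5 : tf (3 + ((5 : ℕ) : ℤ)) = 2 := by decide
    rw [e0, e1, e2, e3, e4, e5]; ring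
  · have e0 : tf (4 + ((0 : ℕ) : ℤ)) = 4 := by decide
    have e1 : tf (4 + ((1 : ℕ) : ℤ)) = 5 := by decide
    have e2 : tf (4 + ((2 : ℕ) : ℤ)) = 0 := by decide
    have e3 : tf (4 + ((3 : ℕ) : ℤ)) = 1 := by decide
    have e4 : tf (4 + ((4 : ℕ) : ℤ)) = 2 := by decide
    have e5 : tf (4 + ((5 : ℕ) : ℤ)) = 3 := by decide
    rw [e0, e1, e2, e3, e4, e5]; ring
  · have e0 : tf (5 + ((0 : ℕ) : ℤ)) = 5 := by decide
    have e1 : tf (5 + ((1 : ℕ) : ℤ)) = 0 := by decide
    have e2 : tf (5 + ((2 : ℕ) : ℤ)) = 1 := by decide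
    have e3 : tf (5 + ((3 : ℕ) : ℤ)) = 2 := by decide
    have e4 : tf (5 + ((4 : ℕ) : ℤ)) = 3 := by decide
    have e5 : tf (5 + ((5 : ℕ) : ℤ)) = 4 := by decide
    rw [e0, e1, e2, e3, e4, e5]; ring

/-- direction with integer index, modulo six -/
def dz (k : ℤ) : ℤ × ℤ := dir (tf k)

lemma dz_cast (k : ℤ) : dz (k + 1) = dir (tf k + 1) := by
  unfold dz
  rw [tf_add_one]

lemma dir_injective : Function.Injective dir := by decide

lemma dir_neg (k : Fin 6) : dir (k + 3) = - dir k := by
  revert k; decide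

section

variable {R : ℤ × ℤ → ℝ} {z : ℤ × ℤ → ℂ}

lemma theta_shift (R : ℤ × ℤ → ℝ) (v : ℤ × ℤ) (a : ℤ) :
    ∑ j ∈ range 6, ang (R v) (R (v + dz (a + j))) (R (v + dz (a + j + 1))) = theta R v := by
  simp only [dz_cast]
  exact sum_tf (fun k => ang (R v) (R (v + dir k)) (R (v + dir (k + 1)))) a

/-- the geometric hypotheses -/
structure Packing (R : ℤ × ℤ → ℝ) (z : ℤ × ℤ → ℂ) : Prop where
  pos : ∀ v, 0 < R v
  sum : ∀ v, theta R v = 2 * π
  tan : ∀ v k, dist (z v) (z (v + dir k)) = R v + R (v + dir k)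
  ori : ∀ v k, 0 < ((starRingEnd ℂ) (z (v + dir k) - z v) * (z (v + dir (k + 1)) - z v)).im
  uni : ∀ v k l, k ≠ l → R (v + dir k) + R (v + dir l) ≤ dist (z (v + dir k)) (z (v + dir l))

lemma dir_next (k : Fin 6) : ∃ l, dir (k + 1) = dir k + dir l := by
  revert k; decide

lemma Packing.flower (h : Packing R z) (v : ℤ × ℤ) :
    Flower (R v) (fun k => R (v + dz k)) (fun k => z (v + dz k) - z v) where
  r_pos := h.pos v
  rho_pos k := h.pos _
  norm_p k := by
    rw [← dist_eq_norm, dist_comm]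
    exact h.tan v _
  tang k := by
    rw [sub_sub_sub_cancel_right, ← dist_eq_norm, dz_cast]
    obtain ⟨l, hl⟩ := dir_next (tf k)
    have := h.tan (v + dir (tf k)) l
    rw [add_assoc, ← hl] at this
    exact this
  ori k := by
    rw [dz_cast]
    exact h.ori v _
  tot a := by
    rw [theta_shift, h.sum]
  sep a m h1 h5 := by
    rw [sub_sub_sub_cancel_right, ← dist_eq_norm]
    apply h.uni
    exact tf_ne h1 h5

lemma Packing.ratio (h : Packing R z) (v : ℤ × ℤ) (k : Fin 6) :
    cc 4 ^ 2 * R v ≤ R (v + dir k) := by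
  have h1 := (h.flower v).ring ((k : ℕ) : ℤ)
  have h2 : dz ((k : ℕ) : ℤ) = dir k := by
    unfold dz
    rw [tf_val]
  rwa [h2] at h1

lemma Packing.ratio' (h : Packing R z) (v : ℤ × ℤ) (k : Fin 6) :
    cc 4 ^ 2 * R (v + dir k) ≤ R v := by
  have h1 := h.ratio (v + dir k) (k + 3)
  rw [dir_neg] at h1
  rwa [add_neg_cancel_right] at h1

lemma Packing.log_bound (h : Packing R z) (v : ℤ × ℤ) (k : Fin 6) :
    |Real.log (R (v + dir k)) - Real.log (R v)| ≤ |Real.log (cc 4 ^ 2)| := by
  have hc : 0 < cc 4 ^ 2 := by have := cc_pos 4; positivity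
  have h1 := h.ratio v k
  have h2 := h.ratio' v k
  have p1 := h.pos v
  have p2 := h.pos (v + dir k)
  have l1 := Real.log_le_log (by positivity) h1
  have l2 := Real.log_le_log (by positivity) h2
  rw [Real.log_mul hc.ne' p1.ne'] at l1
  rw [Real.log_mul hc.ne' p2.ne'] at l2
  rw [abs_le]
  constructor
  · linarith [neg_abs_le (Real.log (cc 4 ^ 2))]
  · linarith [neg_abs_le (Real.log (cc 4 ^ 2))]

lemma Packing.const (h : Packing R z) (k : Fin 6) (t : ℤ × ℤ) :
    Real.log (R (t + dir k)) - Real.log (R t) =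
      Real.log (R (t + (1, 0) + dir k)) - Real.log (R (t + (1, 0))) ∧
    Real.log (R (t + dir k)) - Real.log (R t) =
      Real.log (R (t + (0, 1) + dir k)) - Real.log (R (t + (0, 1))) := by
  have key := liouville_edge (fun x => Real.log (R (t + x)))
    (fun x => Real.log (R (t + x + dir k)) - Real.log (R (t + x))) |Real.log (cc 4 ^ 2)|
    (fun v => h.log_bound (t + v) k)
    (by
      intro v
      have h1 : (fun x => exp (Real.log (R (t + x)))) = fun x => R (t + x) :=
        funext fun x => Real.exp_log (h.pos _)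
      rw [h1]
      have h2 := h.sum (t + v)
      unfold theta at h2 ⊢
      simpa only [add_assoc] using h2)
    (by
      intro v
      have h1 : (fun x => exp (Real.log (R (t + x)) +
          (Real.log (R (t + x + dir k)) - Real.log (R (t + x))))) =
          fun x => R (t + x + dir k) := by
        funext x
        rw [add_sub_cancel]
        exact Real.exp_log (h.pos _)
      rw [h1]
      have h2 := h.sum (t + v + dir k)
      unfold theta at h2 ⊢
      have e : ∀ l, t + (v + dir l) + dir k = t + v + dir k + dir l := by intro l; abel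
      simpa only [e] using h2)
  simpa only [add_zero] using key

theorem Packing.doyle (h : Packing R z) :
    ∃ a b c : ℝ, 0 < a ∧ 0 < b ∧ 0 < c ∧ ∀ n m : ℤ, R (n, m) = c * a ^ n * b ^ m := by
  set A := Real.log (R (1, 0)) - Real.log (R (0, 0)) with hA
  set B := Real.log (R (0, 1)) - Real.log (R (0, 0)) with hB
  have inv : ∀ g : ℤ × ℤ → ℝ, (∀ t, g t = g (t + (1, 0))) → (∀ t, g t = g (t + (0, 1))) →
      ∀ t, g t = g (0, 0) := by
    intro g g1 g2
    have e1 : ∀ n m : ℤ, g (n, m) = g (0, m) := by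
      intro n m
      induction n using Int.induction_on with
      | zero => rfl
      | succ n ih =>
        have := g1 (n, m)
        simp only [Prod.mk_add_mk, add_zero] at this
        rw [← this, ih]
      | pred n ih =>
        have := g1 (-(n : ℤ) - 1, m)
        simp only [Prod.mk_add_mk, add_zero, sub_add_cancel] at this
        rw [this, ih]
    have e2 : ∀ m : ℤ, g (0, m) = g (0, 0) := by
      intro m
      induction m using Int.induction_on with
      | zero => rfl
      | succ n ih =>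
        have := g2 (0, n)
        simp only [Prod.mk_add_mk, add_zero] at this
        rw [← this, ih]
      | pred n ih =>
        have := g2 (0, -(n : ℤ) - 1)
        simp only [Prod.mk_add_mk, add_zero, sub_add_cancel] at this
        rw [this, ih]
    rintro ⟨n, m⟩
    rw [e1, e2]
  have hx : ∀ t : ℤ × ℤ, Real.log (R (t + (1, 0))) - Real.log (R t) = A := by
    intro t
    have := inv (fun t => Real.log (R (t + dir 0)) - Real.log (R t))
      (fun t => (h.const 0 t).1) (fun t => (h.const 0 t).2) t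
    simpa [dir] using this
  have hy : ∀ t : ℤ × ℤ, Real.log (R (t + (0, 1))) - Real.log (R t) = B := by
    intro t
    have := inv (fun t => Real.log (R (t + dir 1)) - Real.log (R t))
      (fun t => (h.const 1 t).1) (fun t => (h.const 1 t).2) t
    simpa [dir] using this
  have hform : ∀ n m : ℤ, Real.log (R (n, m)) = Real.log (R (0, 0)) + n * A + m * B := by
    have e2 : ∀ m : ℤ, Real.log (R (0, m)) = Real.log (R (0, 0)) + m * B := by
      intro m
      induction m using Int.induction_on with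
      | zero => simp
      | succ n ih =>
        have := hy (0, n)
        simp only [Prod.mk_add_mk, add_zero] at this
        push_cast at ih ⊢
        linarith
      | pred n ih =>
        have := hy (0, -(n : ℤ) - 1)
        simp only [Prod.mk_add_mk, add_zero, sub_add_cancel] at this
        push_cast at ih ⊢
        linarith
    intro n m
    induction n using Int.induction_on with
    | zero => simpa using e2 m
    | succ n ih =>
      have := hx (n, m)
      simp only [Prod.mk_add_mk, add_zero] at this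
      push_cast at ih ⊢
      linarith
    | pred n ih =>
      have := hx (-(n : ℤ) - 1, m)
      simp only [Prod.mk_add_mk, add_zero, sub_add_cancel] at this
      push_cast at ih ⊢
      linarith
  refine ⟨exp A, exp B, R (0, 0), exp_pos _, exp_pos _, h.pos _, fun n m => ?_⟩
  rw [← Real.exp_log (h.pos (n, m)), hform n m, Real.exp_add, Real.exp_add,
    Real.exp_log (h.pos (0, 0)), mul_comm (n : ℝ) A, mul_comm (m : ℝ) B, Real.exp_mul,
    Real.exp_mul, Real.rpow_intCast, Real.rpow_intCast]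

end

end Pool.Agent.Y446.Doyle
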